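import Mathlib

/-!
# MP_6d1f6b_co: the gap between Jacobsthal's function and the (total) domination number of the
unitary Cayley graph is unbounded

For every `c` and `k` there is an integer `n` with at least `k` distinct prime divisors such that
both the domination number and the total domination number of the unitary Cayley graph `X_n` are at
most `g(n) - c`.  The case `c = 2` is Q1; in addition this answers the question whether
`g(n) - γ(X_n)` is unbounded.

Idea.  For `K ≥ 1` compare the least size `F` of a family of residues such that every `x` has at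
least `K` members with `x - d` coprime to `n`, with the longest interval (length `L`) with fewer
than `K` integers coprime to `n`.  Adding a large prime to `n` lowers `K` by one and keeps `F` and
`L`, so that for `K = 1` one gets `γ_t ≤ F` and `g ≥ L + 1`.  For `n = 30` and `K = 4` one can
take `F = 16` although `L = 17`.  Another kind of adding a large prime `p` (with `K` about
`14 p φ(n)/n`) increases `L - F` by one: `14` consecutive integers can contain five integers coprime
to `n`, whereas the complement of the first family has `14` members, never five of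
them coprime to `n`; use this complement, suitably translated, in the residue classes modulo `p`.
-/

set_option autoImplicit false

open Finset

namespace Pool.Agent.Results.MP_6d1f6b_co.UnboundedGap

/-- The unitary Cayley graph `X_n` on `ℤ/nℤ`: two (distinct) vertices are adjacent when their
difference is a unit. -/
def unitaryCayley (n : ℕ) : SimpleGraph (ZMod n) where
  Adj x y := x ≠ y ∧ IsUnit (x - y)
  symm := ⟨fun x y h => ⟨h.1.symm, by rw [← neg_sub]; exact h.2.neg⟩⟩
  loopless := ⟨fun _ h => h.1 rfl⟩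

/-- The domination number: the least size of a set `D` of vertices such that every vertex is in `D`
or adjacent to a member of `D`. -/
noncomputable def dominationNumber {V : Type} (G : SimpleGraph V) : ℕ :=
  sInf {k | ∃ D : Finset V, D.card = k ∧ ∀ v, ∃ u ∈ D, u = v ∨ G.Adj u v}

/-- The total domination number: the least size of a set `D` of vertices such that every vertex is
adjacent to a member of `D`. -/
noncomputable def totalDominationNumber {V : Type} (G : SimpleGraph V) : ℕ :=
  sInf {k | ∃ D : Finset V, D.card = k ∧ ∀ v, ∃ u ∈ D, G.Adj u v}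

/-- Jacobsthal's function `g(n)`: the least positive `m` such that every block of `m` consecutive
integers contains an integer coprime to `n`. -/
noncomputable def jacobsthal (n : ℕ) : ℕ :=
  sInf {m | 0 < m ∧ ∀ a : ℤ, ∃ i : ℕ, i < m ∧ IsCoprime (a + i) (n : ℤ)}

/-- `z` is coprime to `n` -/
def Cop (n : ℕ) (z : ℤ) : Prop := Int.gcd z n = 1

instance (n : ℕ) (z : ℤ) : Decidable (Cop n z) := inferInstanceAs (Decidable (Int.gcd z n = 1))

/-- the indicator function of the integers coprime to `n` -/
def ind (n : ℕ) (z : ℤ) : ℕ := if Cop n z then 1 else 0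

theorem cop_iff (n : ℕ) (z : ℤ) : Cop n z ↔ IsCoprime z (n : ℤ) :=
  Int.isCoprime_iff_gcd_eq_one.symm

theorem cop_congr {n : ℕ} {z z' : ℤ} (h : (n : ℤ) ∣ z - z') : Cop n z ↔ Cop n z' := by
  obtain ⟨k, hk⟩ := h
  have : z = z' + n * k := by omega
  rw [cop_iff, cop_iff, this, IsCoprime.add_mul_left_left_iff]

theorem ind_congr {n : ℕ} {z z' : ℤ} (h : (n : ℤ) ∣ z - z') : ind n z = ind n z' := by
  unfold ind
  rw [if_congr (cop_congr h) rfl rfl]

theorem cop_neg (n : ℕ) (z : ℤ) : Cop n (-z) ↔ Cop n z := by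
  unfold Cop
  rw [Int.neg_gcd]

theorem ind_neg (n : ℕ) (z : ℤ) : ind n (-z) = ind n z :=
  if_congr (cop_neg n z) rfl rfl

theorem ind_le_one (n : ℕ) (z : ℤ) : ind n z ≤ 1 := by
  unfold ind
  split_ifs <;> omega

theorem cop_mul {n p : ℕ} (hp : p.Prime) (z : ℤ) : Cop (n * p) z ↔ Cop n z ∧ ¬ (p : ℤ) ∣ z := by
  rw [cop_iff, cop_iff]
  push_cast
  rw [IsCoprime.mul_right_iff]
  apply and_congr Iff.rfl
  rw [isCoprime_comm]
  exact (Nat.prime_iff_prime_int.mp hp).irreducible.coprime_iff_not_dvd

theorem ind_mul {n p : ℕ} (hp : p.Prime) (z : ℤ) :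
    ind (n * p) z = if (p : ℤ) ∣ z then 0 else ind n z := by
  unfold ind
  by_cases h : (p : ℤ) ∣ z
  · rw [if_pos h, if_neg]
    intro h2
    exact ((cop_mul hp z).mp h2).2 h
  · rw [if_neg h]
    apply if_congr _ rfl rfl
    rw [cop_mul hp]
    exact ⟨fun h2 => h2.1, fun h2 => ⟨h2, h⟩⟩

theorem crt {n q : ℕ} (h : IsCoprime (n : ℤ) (q : ℤ)) (α β : ℤ) :
    ∃ z : ℤ, (n : ℤ) ∣ z - α ∧ (q : ℤ) ∣ z - β := by
  obtain ⟨s, t, hst⟩ := h
  refine ⟨α * t * q + β * s * n, ⟨s * (β - α), ?_⟩, ⟨t * (α - β), ?_⟩⟩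
  · linear_combination α * hst
  · linear_combination β * hst

theorem sum_shift (f : ℤ → ℕ) (n : ℕ) (hf : ∀ z, f (z + n) = f z) (y : ℤ) :
    ∑ i ∈ range n, f (y + i) = ∑ i ∈ range n, f (i : ℤ) := by
  have step : ∀ y : ℤ, ∑ i ∈ range n, f (y + 1 + i) = ∑ i ∈ range n, f (y + i) := by
    intro y
    have h1 := sum_range_succ (fun i : ℕ => f (y + i)) n
    have h2 := sum_range_succ' (fun i : ℕ => f (y + i)) n
    rw [h1] at h2
    have h3 : f (y + ((0 : ℕ) : ℤ)) = f (y + n) := by
      rw [hf]; simp
    rw [h3] at h2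
    have h4 : ∑ i ∈ range n, f (y + ((i + 1 : ℕ) : ℤ)) = ∑ i ∈ range n, f (y + 1 + i) := by
      apply sum_congr rfl
      intro i _
      congr 1
      push_cast
      ring
    rw [h4] at h2
    omega
  induction y using Int.induction_on with
  | zero => simp
  | succ k ih => rw [step, ih]
  | pred k ih =>
    have := step (-(k : ℤ) - 1)
    rw [sub_add_cancel] at this
    rw [← this, ih]

theorem sum_periods (f : ℤ → ℕ) (n : ℕ) (hf : ∀ z, f (z + n) = f z) (u : ℕ) (y : ℤ) :
    ∑ i ∈ range (n * u), f (y + i) = u * ∑ i ∈ range n, f (i : ℤ) := by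
  induction u generalizing y with
  | zero => simp
  | succ u ih =>
    rw [Nat.mul_succ, sum_range_add, ih]
    have : ∑ x ∈ range n, f (y + ((n * u + x : ℕ) : ℤ)) = ∑ i ∈ range n, f (i : ℤ) := by
      rw [← sum_shift f n hf (y + ((n * u : ℕ) : ℤ))]
      apply sum_congr rfl
      intro i _
      congr 1
      push_cast
      ring
    rw [this]
    ring

theorem ind_period (n : ℕ) (z : ℤ) : ind n (z + n) = ind n z :=
  ind_congr ⟨1, by ring⟩

theorem sum_ind (n u : ℕ) (y : ℤ) :
    ∑ i ∈ range (n * u), ind n (y + i) = u * ∑ i ∈ range n, ind n (i : ℤ) :=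
  sum_periods _ n (ind_period n) u y

theorem sum_ind_sub (n u : ℕ) (y : ℤ) :
    ∑ i ∈ range (n * u), ind n (y - i) = u * ∑ i ∈ range n, ind n (i : ℤ) := by
  rw [← sum_ind n u (-y)]
  apply sum_congr rfl
  intro i _
  rw [← ind_neg]
  congr 1
  ring

theorem sum_unique_le {α : Type} [Fintype α] (P : α → Prop) [DecidablePred P] (g : α → ℕ) (B : ℕ)
    (hg : ∀ a, g a ≤ B) (hu : ∀ a b, P a → P b → a = b) :
    ∑ a, (if P a then g a else 0) ≤ B := by
  classical
  by_cases h : ∃ a, P a
  · obtain ⟨a, ha⟩ := h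
    rw [Fintype.sum_eq_single a]
    · rw [if_pos ha]
      exact hg a
    · intro b hb
      rw [if_neg]
      intro hPb
      exact hb (hu b a hPb ha)
  · push Not at h
    rw [sum_eq_zero]
    · exact Nat.zero_le _
    · intro a _
      rw [if_neg (h a)]

/-- The family `d` of size `F` meets every translate of the units at least `K` times, and some block
of `L` consecutive integers has fewer than `K` members coprime to `n`. -/
def Good (n K F L : ℕ) : Prop :=
  (∃ (ι : Type) (_ : Fintype ι) (d : ι → ℤ), Fintype.card ι = F ∧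
    ∀ x : ℤ, K ≤ ∑ i, ind n (x - d i)) ∧
  ∃ a : ℤ, ∑ t ∈ range L, ind n (a + t) < K

/-- some block of `14` consecutive integers has five members coprime to `n` -/
def Block5 (n : ℕ) : Prop := ∃ b : ℤ, 5 ≤ ∑ s ∈ range 14, ind n (b + s)

/-- the first family -/
def D0 : Fin 16 → ℤ := ![0, 1, 3, 5, 7, 8, 9, 11, 14, 16, 17, 18, 20, 22, 24, 25]

/-- its complement -/
def D1 : Fin 14 → ℤ := ![2, 4, 6, 10, 12, 13, 15, 19, 21, 23, 26, 27, 28, 29]

theorem base0 : ∀ r : Fin 30, 4 ≤ ∑ i, ind 30 ((r : ℕ) - D0 i) := by decide +kernel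

theorem base1 : ∀ r : Fin 30, ∑ i, ind 30 ((r : ℕ) - D1 i) ≤ 4 := by decide +kernel

theorem ind_red (x d : ℤ) : ind 30 (x - d) = ind 30 (((x % 30).toNat : ℕ) - d) := by
  apply ind_congr
  have h1 : 0 ≤ x % 30 := Int.emod_nonneg _ (by norm_num)
  rw [Int.toNat_of_nonneg h1]
  have := Int.emod_add_mul_ediv x 30
  exact ⟨x / 30, by push_cast; linarith⟩

theorem base0' (x : ℤ) : 4 ≤ ∑ i, ind 30 (x - D0 i) := by
  have h1 : 0 ≤ x % 30 := Int.emod_nonneg _ (by norm_num)
  have h2 : x % 30 < 30 := Int.emod_lt_of_pos _ (by norm_num)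
  have := base0 ⟨(x % 30).toNat, by omega⟩
  simp only [ind_red x]
  exact this

theorem base1' (x : ℤ) : ∑ i, ind 30 (x - D1 i) ≤ 4 := by
  have h1 : 0 ≤ x % 30 := Int.emod_nonneg _ (by norm_num)
  have h2 : x % 30 < 30 := Int.emod_lt_of_pos _ (by norm_num)
  have := base1 ⟨(x % 30).toNat, by omega⟩
  simp only [ind_red x]
  exact this

theorem ind_mono {n m : ℕ} (h : m ∣ n) (z : ℤ) : ind n z ≤ ind m z := by
  unfold ind
  by_cases h1 : Cop n z
  · rw [if_pos h1, if_pos]
    rw [cop_iff] at h1 ⊢
    exact h1.of_isCoprime_of_dvd_right (Int.natCast_dvd_natCast.mpr h)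
  · rw [if_neg h1]
    exact Nat.zero_le _

theorem good_base : Good 30 4 16 17 := by
  refine ⟨⟨Fin 16, inferInstance, D0, by simp, base0'⟩, 20, ?_⟩
  decide +kernel

theorem block_base : Block5 30 := ⟨11, by decide +kernel⟩

/-- a block with five coprime members survives the addition of a large prime -/
theorem block_step {n p : ℕ} (hp : p.Prime) (hn : ¬ p ∣ n) (h14 : 14 < p) (hB : Block5 n) :
    Block5 (n * p) := by
  obtain ⟨b, hb⟩ := hB
  have hco : IsCoprime (n : ℤ) (p : ℤ) := by
    rw [Nat.isCoprime_iff_coprime]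
    exact ((Nat.Prime.coprime_iff_not_dvd hp).mpr hn).symm
  obtain ⟨z, h1, h2⟩ := crt hco b 1
  refine ⟨z, hb.trans (le_of_eq ?_)⟩
  apply sum_congr rfl
  intro s hs
  rw [mem_range] at hs
  rw [ind_mul hp, if_neg]
  · apply ind_congr
    obtain ⟨k, hk⟩ := h1
    exact ⟨-k, by linear_combination -hk⟩
  · rintro ⟨k, hk⟩
    obtain ⟨l, hl⟩ := h2
    have h3 : (1 + s : ℤ) = p * (k - l) := by linear_combination hk - hl
    have h4 : (p : ℤ) ∣ (1 + s : ℤ) := ⟨_, h3⟩
    have h5 := Int.le_of_dvd (by omega) h4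
    omega

/-- adding a large prime lowers `K` by one -/
theorem step2 {n K F L : ℕ} (hn : 0 < n) (hG : Good n (K + 2) F L) :
    ∃ q, n ∣ q ∧ 0 < q ∧ Good q (K + 1) F L := by
  obtain ⟨⟨ι, hι, d, hF, hd⟩, a, ha⟩ := hG
  obtain ⟨q, hqM, hq⟩ := Nat.exists_infinite_primes (n + F + 1)
  have hqn : ¬ q ∣ n := by
    intro h
    have := Nat.le_of_dvd hn h
    omega
  have hco : IsCoprime (n : ℤ) (q : ℤ) := by
    rw [Nat.isCoprime_iff_coprime]
    exact ((Nat.Prime.coprime_iff_not_dvd hq).mpr hqn).symm
  refine ⟨n * q, dvd_mul_right _ _, Nat.mul_pos hn hq.pos, ⟨?_, ?_⟩⟩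
  · let e : ι ≃ Fin F := (Fintype.equivFin ι).trans (finCongr hF)
    choose z hz1 hz2 using fun i : ι => crt hco (d i) (e i : ℕ)
    refine ⟨ι, hι, z, hF, ?_⟩
    intro x
    have h1 : ∀ i, ind (n * q) (x - z i) =
        if (q : ℤ) ∣ x - (e i : ℕ) then 0 else ind n (x - d i) := by
      intro i
      rw [ind_mul hq]
      have h2 : (q : ℤ) ∣ x - z i ↔ (q : ℤ) ∣ x - (e i : ℕ) := by
        have : x - (e i : ℕ) = (x - z i) + (z i - (e i : ℕ)) := by ring
        rw [this]
        exact ((Int.dvd_add_left (hz2 i)).symm)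
      apply if_congr h2 rfl
      apply ind_congr
      obtain ⟨k, hk⟩ := hz1 i
      exact ⟨-k, by linear_combination -hk⟩
    have h3 : ∑ i, ind n (x - d i) = ∑ i, ind (n * q) (x - z i) +
        ∑ i, (if (q : ℤ) ∣ x - (e i : ℕ) then ind n (x - d i) else 0) := by
      rw [← sum_add_distrib]
      apply sum_congr rfl
      intro i _
      rw [h1]
      split_ifs <;> simp
    have h4 : ∑ i, (if (q : ℤ) ∣ x - (e i : ℕ) then ind n (x - d i) else 0) ≤ 1 := by
      apply sum_unique_le _ _ _ (fun i => ind_le_one _ _)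
      intro i j hi hj
      have h5 : (q : ℤ) ∣ (e i : ℕ) - (e j : ℕ) := by
        have : ((e i : ℕ) : ℤ) - (e j : ℕ) = (x - (e j : ℕ)) - (x - (e i : ℕ)) := by ring
        rw [this]
        exact Int.dvd_sub hj hi
      have h6 : ((e i : ℕ) : ℤ) - (e j : ℕ) = 0 := by
        apply Int.eq_zero_of_abs_lt_dvd h5
        have := (e i).isLt
        have := (e j).isLt
        rw [abs_lt]
        constructor <;> omega
      apply e.injective
      apply Fin.ext
      omega
    have := hd x
    omega
  · by_cases h : ∃ c, c < L ∧ ind n (a + c) = 1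
    · obtain ⟨c, hc, hc1⟩ := h
      obtain ⟨A, hA1, hA2⟩ := crt hco a (-c)
      refine ⟨A, ?_⟩
      have h1 : ∑ t ∈ range L, ind n (a + t) =
          ind n (a + c) + ∑ t ∈ (range L).erase c, ind n (a + t) :=
        (add_sum_erase _ _ (mem_range.mpr hc)).symm
      have h2 : ∑ t ∈ range L, ind (n * q) (A + t) =
          ind (n * q) (A + c) + ∑ t ∈ (range L).erase c, ind (n * q) (A + t) :=
        (add_sum_erase _ _ (mem_range.mpr hc)).symm
      have h3 : ind (n * q) (A + c) = 0 := by
        rw [ind_mul hq, if_pos]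
        have : A + (c : ℤ) = A - (-c) := by ring
        rw [this]
        exact hA2
      have h4 : ∑ t ∈ (range L).erase c, ind (n * q) (A + t) ≤
          ∑ t ∈ (range L).erase c, ind n (a + t) := by
        apply sum_le_sum
        intro t _
        refine (ind_mono (dvd_mul_right n q) _).trans (le_of_eq ?_)
        apply ind_congr
        obtain ⟨k, hk⟩ := hA1
        exact ⟨k, by linear_combination hk⟩
      omega
    · push Not at h
      refine ⟨a, ?_⟩
      have h1 : ∑ t ∈ range L, ind (n * q) (a + t) = 0 := by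
        apply sum_eq_zero
        intro t ht
        rw [mem_range] at ht
        have h2 := h t ht
        have h3 := ind_le_one n (a + t)
        have h4 := ind_mono (dvd_mul_right n q) (a + t)
        omega
      omega

theorem reduce (K : ℕ) : ∀ {n F L : ℕ}, 0 < n → Good n (K + 1) F L →
    ∃ N, n ∣ N ∧ 0 < N ∧ Good N 1 F L := by
  induction K with
  | zero => exact fun {n F L} hn h => ⟨n, dvd_rfl, hn, h⟩
  | succ K ih =>
    intro n F L hn h
    obtain ⟨q, hq1, hq2, hq3⟩ := step2 hn h
    obtain ⟨N, hN1, hN2, hN3⟩ := ih hq2 hq3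
    exact ⟨N, hq1.trans hN1, hN2, hN3⟩

/-- adding a large prime increases `L - F` by one -/
theorem step1 {n K F L : ℕ} (hn : 0 < n) (h30 : 30 ∣ n) (hB : Block5 n) (hG : Good n K F L) :
    ∃ p, p.Prime ∧ ¬ p ∣ n ∧ Block5 (n * p) ∧
      ∃ K' F' L', Good (n * p) K' F' L' ∧ L' + F = L + F' + 1 := by
  obtain ⟨⟨ι, hι, d, hF, hd⟩, a, ha⟩ := hG
  obtain ⟨p, hpM, hp⟩ := Nat.exists_infinite_primes (14 * F + 16 * n + 15)
  have hpn : ¬ p ∣ n := by
    intro h
    have := Nat.le_of_dvd hn h
    omega
  have hco : IsCoprime (n : ℤ) (p : ℤ) := by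
    rw [Nat.isCoprime_iff_coprime]
    exact ((Nat.Prime.coprime_iff_not_dvd hp).mpr hpn).symm
  -- the parameters
  obtain ⟨u, v, huv, hv1, hv2⟩ : ∃ u v : ℕ, p = n * u + v ∧ F ≤ v ∧ v < F + n := by
    refine ⟨(p - F) / n, (p - F) % n + F, ?_, by omega, ?_⟩
    · have := Nat.div_add_mod (p - F) n
      omega
    · have := Nat.mod_lt (p - F) hn
      omega
  set φ : ℕ := ∑ i ∈ range n, ind n (i : ℤ) with hφ
  have hφ1 : 1 ≤ φ := by
    have h1 : 1 < n := by
      have := Nat.le_of_dvd hn h30
      omega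
    have h2 : ind n ((1 : ℕ) : ℤ) ≤ φ :=
      single_le_sum (f := fun i : ℕ => ind n (i : ℤ)) (fun i _ => Nat.zero_le _)
        (mem_range.mpr h1)
    have h3 : ind n ((1 : ℕ) : ℤ) = 1 := by
      unfold ind
      rw [if_pos]
      rw [cop_iff]
      exact isCoprime_one_left
    omega
  have hu1 : 1 ≤ u := by
    by_contra h
    have : u = 0 := by omega
    rw [this] at huv
    omega
  refine ⟨p, hp, hpn, block_step hp hpn (by omega) hB, 14 * (u * φ) + K - 4,
    n * u * 14 + F, n * (14 * u) + (L + 1), ⟨?_, ?_⟩, by ring⟩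
  · -- the family
    let e : ι ≃ Fin F := (Fintype.equivFin ι).trans (finCongr hF)
    choose z hz1 hz2 using fun s : Fin (n * u) × Fin 14 => crt hco (D1 s.2 + (s.1 : ℕ)) (s.1 : ℕ)
    choose y hy1 hy2 using fun i : ι => crt hco (d i) ((n * u + (e i : ℕ) : ℕ) : ℤ)
    refine ⟨(Fin (n * u) × Fin 14) ⊕ ι, inferInstance, Sum.elim z y, ?_, ?_⟩
    · simp [hF]
    intro x
    rw [Fintype.sum_sum_type, Fintype.sum_prod_type]
    simp only [Sum.elim_inl, Sum.elim_inr]
    let r : Fin (n * u) ⊕ ι → ℕ := Sum.elim (fun i => (i : ℕ)) (fun i => n * u + (e i : ℕ))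
    let g : Fin (n * u) ⊕ ι → ℕ :=
      Sum.elim (fun i => ∑ j, ind n (x - (i : ℕ) - D1 j)) (fun i => ind n (x - d i))
    have hz : ∀ i : Fin (n * u), ∑ j, ind (n * p) (x - z (i, j)) =
        if (p : ℤ) ∣ x - (r (Sum.inl i) : ℕ) then 0 else g (Sum.inl i) := by
      intro i
      have h1 : ∀ j, ind (n * p) (x - z (i, j)) =
          if (p : ℤ) ∣ x - (i : ℕ) then 0 else ind n (x - (i : ℕ) - D1 j) := by
        intro j
        rw [ind_mul hp]
        have h2 : (p : ℤ) ∣ x - z (i, j) ↔ (p : ℤ) ∣ x - (i : ℕ) := by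
          have : x - (i : ℕ) = (x - z (i, j)) + (z (i, j) - (i : ℕ)) := by ring
          rw [this]
          exact ((Int.dvd_add_left (hz2 (i, j))).symm)
        apply if_congr h2 rfl
        apply ind_congr
        obtain ⟨k, hk⟩ := hz1 (i, j)
        exact ⟨-k, by linear_combination -hk⟩
      simp only [h1]
      show _ = if (p : ℤ) ∣ x - ((i : ℕ) : ℤ) then 0 else ∑ j, ind n (x - (i : ℕ) - D1 j)
      split_ifs
      · simp
      · rfl
    have hy : ∀ i : ι, ind (n * p) (x - y i) =
        if (p : ℤ) ∣ x - (r (Sum.inr i) : ℕ) then 0 else g (Sum.inr i) := by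
      intro i
      rw [ind_mul hp]
      show _ = if (p : ℤ) ∣ x - ((n * u + (e i : ℕ) : ℕ) : ℤ) then 0 else ind n (x - d i)
      have h2 : (p : ℤ) ∣ x - y i ↔ (p : ℤ) ∣ x - ((n * u + (e i : ℕ) : ℕ) : ℤ) := by
        have : x - ((n * u + (e i : ℕ) : ℕ) : ℤ) =
          (x - y i) + (y i - ((n * u + (e i : ℕ) : ℕ) : ℤ)) := by ring
        rw [this]
        exact ((Int.dvd_add_left (hy2 i)).symm)
      apply if_congr h2 rfl
      apply ind_congr
      obtain ⟨k, hk⟩ := hy1 i
      exact ⟨-k, by linear_combination -hk⟩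
    simp only [hz, hy]
    rw [← Fintype.sum_sum_type (fun s => if (p : ℤ) ∣ x - (r s : ℕ) then 0 else g s)]
    have h1 : ∑ s, g s = ∑ s, (if (p : ℤ) ∣ x - (r s : ℕ) then 0 else g s) +
        ∑ s, (if (p : ℤ) ∣ x - (r s : ℕ) then g s else 0) := by
      rw [← sum_add_distrib]
      apply sum_congr rfl
      intro s _
      split_ifs <;> simp
    have h2 : ∑ s, (if (p : ℤ) ∣ x - (r s : ℕ) then g s else 0) ≤ 4 := by
      apply sum_unique_le
      · rintro (i | i)
        · show ∑ j, ind n (x - (i : ℕ) - D1 j) ≤ 4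
          exact (sum_le_sum fun j _ => ind_mono h30 _).trans (base1' _)
        · show ind n (x - d i) ≤ 4
          exact (ind_le_one _ _).trans (by norm_num)
      · have hr : ∀ s, r s < p := by
          rintro (i | i)
          · show (i : ℕ) < p
            have := i.isLt
            omega
          · show n * u + (e i : ℕ) < p
            have := (e i).isLt
            omega
        have hinj : ∀ s t, r s = r t → s = t := by
          rintro (i | i) (j | j) h
          · have : (i : ℕ) = j := h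
            rw [Fin.ext this]
          · have : (i : ℕ) = n * u + (e j : ℕ) := h
            have := i.isLt
            omega
          · have : n * u + (e i : ℕ) = (j : ℕ) := h
            have := j.isLt
            omega
          · have : n * u + (e i : ℕ) = n * u + (e j : ℕ) := h
            have h3 : e i = e j := Fin.ext (by omega)
            rw [e.injective h3]
        intro s t hs ht
        apply hinj
        have h5 : (p : ℤ) ∣ (r s : ℤ) - (r t : ℤ) := by
          have : (r s : ℤ) - (r t : ℤ) = (x - (r t : ℤ)) - (x - (r s : ℤ)) := by ring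
          rw [this]
          exact Int.dvd_sub ht hs
        have h6 : (r s : ℤ) - (r t : ℤ) = 0 := by
          apply Int.eq_zero_of_abs_lt_dvd h5
          have := hr s
          have := hr t
          rw [abs_lt]
          constructor <;> omega
        omega
    have h3 : ∑ s, g s = 14 * (u * φ) + ∑ i, ind n (x - d i) := by
      rw [Fintype.sum_sum_type]
      congr 1
      show ∑ i : Fin (n * u), ∑ j, ind n (x - ((i : ℕ) : ℤ) - D1 j) = _
      rw [sum_comm]
      have h4 : ∀ j, ∑ i : Fin (n * u), ind n (x - ((i : ℕ) : ℤ) - D1 j) = u * φ := by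
        intro j
        rw [Fin.sum_univ_eq_sum_range (fun i : ℕ => ind n (x - (i : ℤ) - D1 j)) (n * u)]
        rw [hφ, ← sum_ind_sub n u (x - D1 j)]
        apply sum_congr rfl
        intro i _
        congr 1
        ring
      simp only [h4]
      simp
    have h4 := hd x
    omega
  · -- the block
    obtain ⟨b, hb⟩ := hB
    set A : ℤ := a + n * ((p * b - a) / n) with hA
    have hn' : (0 : ℤ) < n := by exact_mod_cast hn
    have hA1 : A ≤ p * b := by
      have := Int.mul_ediv_self_le (x := p * b - a) (k := (n : ℤ)) hn'.ne'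
      omega
    have hA2 : p * b < A + n := by
      have := Int.lt_mul_ediv_self_add (x := p * b - a) (k := (n : ℤ)) hn'
      omega
    refine ⟨A, ?_⟩
    have h1 : ∑ t ∈ range (n * (14 * u) + (L + 1)), ind n (A + t) =
        14 * (u * φ) + ∑ t ∈ range (L + 1), ind n (a + t) := by
      rw [sum_range_add, sum_ind]
      congr 1
      · ring
      · apply sum_congr rfl
        intro t _
        apply ind_congr
        refine ⟨(p * b - a) / n + 14 * u, ?_⟩
        rw [hA]
        push_cast
        ring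
    have h2 : ∑ t ∈ range (L + 1), ind n (a + t) ≤ (∑ t ∈ range L, ind n (a + t)) + 1 := by
      rw [sum_range_succ]
      have := ind_le_one n (a + L)
      omega
    have h3 : ∑ t ∈ range (n * (14 * u) + (L + 1)), ind n (A + t) =
        ∑ t ∈ range (n * (14 * u) + (L + 1)), ind (n * p) (A + t) +
        ∑ t ∈ range (n * (14 * u) + (L + 1)),
          (if (p : ℤ) ∣ A + (t : ℤ) then ind n (A + t) else 0) := by
      rw [← sum_add_distrib]
      apply sum_congr rfl
      intro t _
      rw [ind_mul hp]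
      split_ifs <;> simp
    have h4 : 5 ≤ ∑ t ∈ range (n * (14 * u) + (L + 1)),
          (if (p : ℤ) ∣ A + (t : ℤ) then ind n (A + t) else 0) := by
      refine hb.trans ?_
      let τ : ℕ → ℕ := fun s => (p * (b + s) - A).toNat
      have hτ : ∀ s : ℕ, A + (τ s : ℤ) = p * (b + s) := by
        intro s
        have : 0 ≤ (p : ℤ) * (b + s) - A := by
          have h5 : (0 : ℤ) ≤ p * s := by positivity
          have h6 : (p : ℤ) * (b + s) = p * b + p * s := by ring
          omega
        show A + (((p * (b + s) - A).toNat : ℕ) : ℤ) = _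
        rw [Int.toNat_of_nonneg this]
        ring
      have hterm : ∀ s : ℕ, ind n (b + s) =
          if (p : ℤ) ∣ A + (τ s : ℤ) then ind n (A + (τ s : ℤ)) else 0 := by
        intro s
        rw [hτ, if_pos (dvd_mul_right _ _)]
        unfold ind
        apply if_congr _ rfl rfl
        rw [cop_iff, cop_iff, IsCoprime.mul_left_iff]
        exact ⟨fun h => ⟨hco.symm, h⟩, fun h => h.2⟩
      have hinj : ∀ s ∈ range 14, ∀ t ∈ range 14, τ s = τ t → s = t := by
        intro s _ t _ hst
        have h5 := hτ s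
        rw [hst, hτ t] at h5
        have h6 : (p : ℤ) ≠ 0 := by exact_mod_cast hp.ne_zero
        have h7 := mul_left_cancel₀ h6 h5
        omega
      rw [sum_congr rfl (fun s _ => hterm s)]
      rw [← sum_image (f := fun t : ℕ => if (p : ℤ) ∣ A + (t : ℤ) then ind n (A + (t : ℤ)) else 0)
        (s := range 14) (g := τ) hinj]
      apply sum_le_sum_of_subset
      intro t ht
      rw [mem_image] at ht
      obtain ⟨s, hs, rfl⟩ := ht
      rw [mem_range] at hs ⊢
      have h5 := hτ s
      have h6 : (p : ℤ) * (b + s) = p * b + p * s := by ring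
      have h7 : (p : ℤ) * s ≤ p * 13 := by
        apply mul_le_mul_of_nonneg_left _ (by positivity)
        exact_mod_cast (by omega : s ≤ 13)
      have h8 : (τ s : ℤ) < n + p * 13 := by omega
      have h9 : (n : ℤ) + p * 13 ≤ ((n * (14 * u) + (L + 1) : ℕ) : ℤ) := by
        have h10 : n + p * 13 ≤ n * (14 * u) + (L + 1) := by
          have h11 : n * (14 * u) = 14 * (n * u) := by ring
          rw [h11]
          omega
        exact_mod_cast h10
      exact_mod_cast h8.trans_le h9
    have hX : 1 ≤ u * φ := Nat.mul_pos hu1 hφ1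
    omega

theorem card_primeFactors_mul {n p : ℕ} (hn : 0 < n) (hp : p.Prime) (hpn : ¬ p ∣ n) :
    (n * p).primeFactors.card = n.primeFactors.card + 1 := by
  rw [Nat.primeFactors_mul hn.ne' hp.ne_zero, Nat.Prime.primeFactors hp, card_union_of_disjoint,
    card_singleton]
  rw [disjoint_singleton_right]
  intro h
  exact hpn (Nat.dvd_of_mem_primeFactors h)

theorem grow (c : ℕ) : ∃ n K F L, 0 < n ∧ 30 ∣ n ∧ Block5 n ∧ Good n K F L ∧ F + c + 1 ≤ L ∧
    c + 3 ≤ n.primeFactors.card := by
  induction c with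
  | zero =>
    refine ⟨30, 4, 16, 17, by norm_num, dvd_rfl, block_base, good_base, by norm_num, ?_⟩
    have : Nat.primeFactors 30 = {2, 3, 5} := by decide +kernel
    rw [this]
    decide
  | succ c ih =>
    obtain ⟨n, K, F, L, hn, h30, hB, hG, hFL, hc⟩ := ih
    obtain ⟨p, hp, hpn, hB', K', F', L', hG', h⟩ := step1 hn h30 hB hG
    refine ⟨n * p, K', F', L', Nat.mul_pos hn hp.pos, h30.trans (dvd_mul_right _ _), hB', hG',
      by omega, ?_⟩
    rw [card_primeFactors_mul hn hp hpn]
    omega

/-- a good family for `K = 1` gives a totally dominating set -/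
theorem exists_dominating {N F L : ℕ} (hN : 1 < N) (hG : Good N 1 F L) :
    ∃ D : Finset (ZMod N), D.card ≤ F ∧ ∀ v, ∃ u ∈ D, (unitaryCayley N).Adj u v := by
  classical
  obtain ⟨⟨ι, hι, d, hF, hd⟩, -⟩ := hG
  have : Fact (1 < N) := ⟨hN⟩
  have : NeZero N := ⟨by omega⟩
  refine ⟨univ.image (fun i => ((d i : ℤ) : ZMod N)), ?_, ?_⟩
  · rw [← hF]
    exact card_image_le
  · intro v
    have h1 := hd (v.val : ℤ)
    obtain ⟨i, -, hi⟩ : ∃ i ∈ (univ : Finset ι), ind N ((v.val : ℤ) - d i) ≠ 0 := by
      by_contra h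
      push Not at h
      rw [sum_eq_zero h] at h1
      omega
    refine ⟨((d i : ℤ) : ZMod N), mem_image_of_mem _ (mem_univ _), ?_⟩
    have h2 : IsCoprime ((v.val : ℤ) - d i) (N : ℤ) := by
      rw [← cop_iff]
      by_contra h
      apply hi
      unfold ind
      rw [if_neg h]
    have h3 : IsUnit ((((v.val : ℤ) - d i : ℤ)) : ZMod N) :=
      (ZMod.coe_int_isUnit_iff_isCoprime _ _).mpr h2.symm
    have h4 : ((((v.val : ℤ) - d i : ℤ)) : ZMod N) = v - ((d i : ℤ) : ZMod N) := by
      push_cast
      rw [ZMod.natCast_zmod_val]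
    rw [h4] at h3
    constructor
    · intro h
      rw [h, sub_self] at h3
      exact not_isUnit_zero h3
    · rw [← neg_sub]
      exact h3.neg

theorem jacobsthal_lower {N F L : ℕ} (hN : 1 < N) (hG : Good N 1 F L) : L + 1 ≤ jacobsthal N := by
  obtain ⟨-, a, ha⟩ := hG
  apply le_csInf
  · refine ⟨N, by omega, fun b => ?_⟩
    refine ⟨((1 - b) % (N : ℤ)).toNat, ?_, ?_⟩
    · have h1 : 0 ≤ (1 - b) % (N : ℤ) := Int.emod_nonneg _ (by omega)
      have h2 : (1 - b) % (N : ℤ) < N := Int.emod_lt_of_pos _ (by omega)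
      omega
    · have h1 : 0 ≤ (1 - b) % (N : ℤ) := Int.emod_nonneg _ (by omega)
      rw [Int.toNat_of_nonneg h1]
      have h2 := Int.emod_add_mul_ediv (1 - b) N
      have h3 : b + (1 - b) % (N : ℤ) = 1 + N * (-((1 - b) / N)) := by linarith
      rw [h3, IsCoprime.add_mul_left_left_iff]
      exact isCoprime_one_left
  · rintro m ⟨hm, h⟩
    by_contra hlt
    push Not at hlt
    obtain ⟨i, hi, hc⟩ := h a
    have h1 : ind N (a + i) ≤ ∑ t ∈ range L, ind N (a + t) :=
      single_le_sum (f := fun t : ℕ => ind N (a + t)) (fun _ _ => Nat.zero_le _)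
        (mem_range.mpr (by omega))
    have h2 : ind N (a + i) = 1 := by
      unfold ind
      rw [if_pos ((cop_iff _ _).mpr hc)]
    omega

/-- For all `c` and `k` there is an `n > 1` with at least `k` distinct prime divisors such that the
domination number and the total domination number of the unitary Cayley graph `X_n` are at most
`g(n) - c`. -/
theorem result : ∀ c k : ℕ, ∃ n : ℕ, 1 < n ∧ k ≤ n.primeFactors.card ∧
    dominationNumber (unitaryCayley n) + c ≤ jacobsthal n ∧
    totalDominationNumber (unitaryCayley n) + c ≤ jacobsthal n := by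
  intro c k
  obtain ⟨n, K, F, L, hn, h30, hB, hG, hFL, hc⟩ := grow (c + k)
  obtain ⟨K, rfl⟩ : ∃ K₀, K = K₀ + 1 := by
    obtain ⟨-, a, ha⟩ := hG
    exact ⟨K - 1, by omega⟩
  obtain ⟨N, hnN, hN, hG1⟩ := reduce K hn hG
  have hN1 : 1 < N := by
    have h1 := Nat.le_of_dvd hN (h30.trans hnN)
    omega
  obtain ⟨D, hD, hdom⟩ := exists_dominating hN1 hG1
  have hg := jacobsthal_lower hN1 hG1
  have h1 : totalDominationNumber (unitaryCayley N) ≤ D.card := Nat.sInf_le ⟨D, rfl, hdom⟩
  have h2 : dominationNumber (unitaryCayley N) ≤ D.card := by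
    apply Nat.sInf_le
    refine ⟨D, rfl, fun v => ?_⟩
    obtain ⟨u, hu, huv⟩ := hdom v
    exact ⟨u, hu, Or.inr huv⟩
  refine ⟨N, hN1, ?_, by omega, by omega⟩
  have h3 : n.primeFactors.card ≤ N.primeFactors.card :=
    card_le_card (Nat.primeFactors_mono hnN hN.ne')
  omega

end Pool.Agent.Results.MP_6d1f6b_co.UnboundedGap
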